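import Pool.Agent.W662.SK.StmtsA
import Pool.Agent.W662.SK.Basic

set_option autoImplicit false

/-! Project SK (helper662), parts L3 and L4. -/

open scoped InnerProductSpace ENNReal

namespace Pool.Agent.W15.SK

open Pool.Agent.W662.SK

theorem l3 : S_L3 := by
  classical
  intro Γ K _ _ _ _ π h n ζ F ε hε
  obtain ⟨E, i1, i2, i3, η, hη⟩ := h n (fun i => lp.single 2 0 (ζ i)) F ε hε
  refine ⟨E, i1, i2, i3, η, fun g hg i j => ?_⟩
  have h1 := hη g hg i j
  have h2 : ⟪(lp.single 2 0 (ζ j) : L2 ℤ K), lf π g (lp.single 2 0 (ζ i))⟫_ℂ =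
      ⟪ζ j, π g (ζ i)⟫_ℂ := by
    have h3 : lf π g (lp.single 2 0 (ζ i)) = (lp.single 2 0 (π g (ζ i)) : L2 ℤ K) := by
      show isoL (Equiv.refl ℤ) (fun _ => π g) (lp.single 2 0 (ζ i)) = _
      rw [isoL_single]
      rfl
    rw [h3, inner_single_left', lp.single_apply_self]
  rw [← h2]
  exact h1

theorem l4 : S_L4 := by
  intro Γ K _ _ _ _ π π' g
  have h : cl (lf π g) - cl (lf π' g) = lft ℤ (cl (π g) - cl (π' g)) := by
    refine ContinuousLinearMap.ext fun f => l2_ext fun k => ?_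
    rfl
  rw [h]
  exact norm_lft_le _

end Pool.Agent.W15.SK
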